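import Pool.Agent.H270.SP.Rec
import Pool.Agent.H270.SP.HInt
import Pool.Agent.H270.SP.HLin
import Pool.Agent.H270.SP.HJay

/-!
# Lehmer's problem for a reciprocal polynomial whose sum with an antireciprocal one has few zeros
outside the unit circle

Let `F` be an irreducible reciprocal integer polynomial of degree `N` with `M(F) > 1`, and let `H ≠ 0`
be any antireciprocal integer polynomial, `H(X) = - X ^ N H(1 / X)`. Let `k` be the number of the zeros
of `F + H` outside the unit circle, with multiplicity (the coefficient of `X ^ N` in `F + H` is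
supposed to be nonzero). Then `log M(F) ≥ c / (1 + k log (k + 2) + log M(H))³` with an absolute
constant `c > 0`, whatever the degree and the number of the zeros of `F` outside the unit circle.

For instance `H = X ^ (N - m) - X ^ m` with `M(H) = 1`, `2 m < N`, for monic `F`: if `M(F)` tends to `1`
then the number of the zeros of `F + X ^ (N - m) - X ^ m` outside the unit circle tends to infinity, for
all `m`.

Proof. On the unit circle `|F + H|² = |F|² + |H|²`. One of the points `t = 2, …, k + 2` is not near a zero
of `P = F + H`, and there `|P(t)|` is at most `2 |F(t)|` or `2 |H(t)|`. Harnack's inequality for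
`log |P / F| ≥ 0` or `log |P / H| ≥ 0` outside of the unit circle, with the Poisson-Jensen formula for
the zeros, gives `M(P) ≤ (2 (2 (k + 2) (k + 3)) ^ k)³ max(M(F), M(H))`. So the height
`∫ log max(|F|, |H|) ≤ log M(P)` of the pair is bounded, and the theorem of the starting library on
coprime pairs applies.
-/

set_option autoImplicit false

namespace Pool.Agent.Results.MP_30f4fc_nt.AntireciprocalCompanion

open Polynomial

noncomputable section

/-- The Mahler measure of an integer polynomial (Mathlib). -/
def measure (P : ℤ[X]) : ℝ := (P.map (Int.castRingHom ℂ)).mahlerMeasure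

/-- The number of the complex zeros outside the closed unit disc, with multiplicity. -/
def outside (P : ℤ[X]) : ℕ :=
  ((P.map (Int.castRingHom ℂ)).roots.filter fun z => 1 < ‖z‖).card

/-- `F` has the degree `N`, and `X ^ N F(1 / X) = F(X)`. -/
def Reciprocal (N : ℕ) (F : ℤ[X]) : Prop := F.natDegree = N ∧ F.reflect N = F

/-- `H` has degree at most `N`, and `X ^ N H(1 / X) = - H(X)`. -/
def Antireciprocal (N : ℕ) (H : ℤ[X]) : Prop := H.natDegree ≤ N ∧ H.reflect N = -H

theorem t_J : Pool.Agent.H270.SP.S_J :=
  Pool.Agent.H270.SP.t_jay Pool.Agent.H270.SP.t_int Pool.Agent.H270.SP.t_lin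

theorem result : ∃ c : ℝ, 0 < c ∧ ∀ (N : ℕ) (F H : ℤ[X]), Irreducible F → Reciprocal N F →
    Antireciprocal N H → H ≠ 0 → (F + H).coeff N ≠ 0 → 1 < measure F →
    c / (1 + (outside (F + H) : ℝ) * Real.log (outside (F + H) + 2) +
      Real.log (measure H)) ^ 3 ≤ Real.log (measure F) := by
  obtain ⟨c, hc, h⟩ := Pool.Agent.H270.SP.leh_gen Pool.Agent.H270.SP.t_int t_J
  refine ⟨c, hc, ?_⟩
  intro N F H hirr hF hH hH0 hlead hM
  have hcirc := fun z hz => Pool.Agent.H270.SP.rec_circle N F H hF.1.le hH.1 hF.2 hH.2 z hz
  have hnd : ¬ F ∣ H := by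
    rintro ⟨w, hw⟩
    have hw0 : w ≠ 0 := by
      rintro rfl
      exact hH0 (by rw [hw, mul_zero])
    have h1 : H.natDegree = F.natDegree + w.natDegree := by
      rw [hw, natDegree_mul hirr.ne_zero hw0]
    have h2 := hH.1
    have h3 := hF.1
    have h4 : w.natDegree = 0 := by omega
    have h5 : w = C (w.coeff 0) := eq_C_of_natDegree_eq_zero h4
    have h6 : H = C (w.coeff 0) * F := by
      rw [hw, mul_comm]
      congr 1
    have h7 := hH.2
    rw [h6, reflect_C_mul, hF.2] at h7
    have h8 : C (w.coeff 0) * F = 0 := by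
      have h9 : (2 : ℤ[X]) * (C (w.coeff 0) * F) = 0 := by
        linear_combination h7
      exact (mul_eq_zero.mp h9).resolve_left two_ne_zero
    exact hH0 (by rw [h6, h8])
  refine h (outside (F + H)) F H hirr hH0 (by rw [hF.1]; exact hH.1) hnd ?_ ?_ ?_ le_rfl hM
  · rw [hF.1]
    exact le_natDegree_of_ne_zero hlead
  · intro z hz
    refine abs_le_of_sq_le_sq' ?_ (norm_nonneg _) |>.2
    rw [hcirc z hz]
    have := sq_nonneg (‖(Pool.Agent.H261R2.CM.toC H).eval z‖)
    linarith
  · intro z hz
    refine abs_le_of_sq_le_sq' ?_ (norm_nonneg _) |>.2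
    rw [hcirc z hz]
    have := sq_nonneg (‖(Pool.Agent.H261R2.CM.toC F).eval z‖)
    linarith

end

end Pool.Agent.Results.MP_30f4fc_nt.AntireciprocalCompanion
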